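import Pool.Agent.Lib.MP_811154_nt.Proof

set_option autoImplicit false

open Pool.Agent.Lib.MP_811154_nt

/-- Wilf's inequality holds for every modular numerical semigroup `S(a,b,1)`. -/
theorem Pool.Agent.Results.MP_811154_nt.WilfModular.result (a b : ℕ) (ha : 0 < a) (hb : 0 < b) :
    (0 ∈ modS a b ∧ (∀ x ∈ modS a b, ∀ y ∈ modS a b, x + y ∈ modS a b) ∧
      ((modS a b)ᶜ).Finite) ∧
    (∃! G : Set ℕ, IsMinGen (modS a b) G) ∧ (∃! F : ℤ, IsFrob (modS a b) F) ∧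
    ∀ (G : Set ℕ) (F : ℤ), IsMinGen (modS a b) G → IsFrob (modS a b) F →
      G.Finite ∧ (G.ncard : ℤ) * ((modS a b)ᶜ).ncard ≤ ((G.ncard : ℤ) - 1) * (F + 1) :=
  main a b ha hb
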